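import Mathlib
import Pool.Agent.W611.RO.Stms

/-!
Project RO: norms of fields at the basis vectors.
-/

set_option autoImplicit false
open scoped ComplexConjugate InnerProductSpace Topology BoundedContinuousFunction
open Filter MeasureTheory NormedSpace

namespace Pool.Agent.W540.RO
open Pool.Agent.H712R5.BO Pool.Agent.W611.RO

section
variable {G Ω H : Type} [Group G] [Countable G] [MeasurableSpace Ω] [MulAction G Ω]
  [NormedAddCommGroup H] [InnerProductSpace ℂ H] [CompleteSpace H]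

theorem inner_star_mul (b : HilbertBasis G ℂ H) (L : G → unitary (H →L[ℂ] H))
    (A : CF (Ω := Ω) b L) (ω : Ω) (x : H) :
    ⟪x, ev b L ω (star A * A) x⟫_ℂ = ((‖ev b L ω A x‖ ^ 2 : ℝ) : ℂ) := by
  rw [map_mul, map_star, ContinuousLinearMap.star_eq_adjoint]
  show ⟪x, (ContinuousLinearMap.adjoint (ev b L ω A)) (ev b L ω A x)⟫_ℂ = _
  rw [ContinuousLinearMap.adjoint_inner_right, inner_self_eq_norm_sq_to_K]
  push_cast
  rfl

theorem norm_sq_eq (b : HilbertBasis G ℂ H) (L : G → unitary (H →L[ℂ] H))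
    (A : CF (Ω := Ω) b L) (ω : Ω) (x : H) :
    ‖ev b L ω A x‖ ^ 2 = (⟪x, ev b L ω (star A * A) x⟫_ℂ).re := by
  rw [inner_star_mul, Complex.ofReal_re]

/-- **N2.** -/
theorem t_N2 : P_N2 := by
  intro G Ω H _ _ _ _ _ _ _ P _ b L hReg hmp A
  have hmeas : ∀ x : H, Measurable (fun ω : Ω => ‖ev b L ω A x‖) := by
    intro x
    have h1 : (fun ω : Ω => ‖ev b L ω A x‖) =
        fun ω => √((⟪x, ev b L ω (star A * A) x⟫_ℂ).re) := by
      funext ω
      rw [← norm_sq_eq, Real.sqrt_sq (norm_nonneg _)]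
    rw [h1]
    exact (Complex.measurable_re.comp (ev_meas b L (star A * A) x x)).sqrt
  have hint : ∀ x : H, Integrable (fun ω : Ω => ‖ev b L ω A x‖ ^ 2) P := by
    intro x
    have h1 : (fun ω : Ω => ‖ev b L ω A x‖ ^ 2) =
        fun ω => (⟪x, ev b L ω (star A * A) x⟫_ℂ).re := by
      funext ω
      exact norm_sq_eq b L A ω x
    rw [h1]
    exact (ev_int P b L (star A * A) x x).re
  refine ⟨hmeas, fun k => ⟨hint (b k), ?_⟩⟩
  -- invariance
  have hinv : ∀ ω : Ω, ‖ev b L (k • ω) A (b k)‖ = ‖ev b L ω A (b 1)‖ := by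
    intro ω
    have h1 : (L k : H →L[ℂ] H) (b 1) = b k := by
      rw [hReg k 1, mul_one]
    have h2 := ev_cov b L A k ω
    have h3 : ev b L (k • ω) A (b k) = (L k : H →L[ℂ] H) (ev b L ω A (b 1)) := by
      rw [← h1]
      exact congrArg (fun T : H →L[ℂ] H => T (b 1)) h2
    rw [h3]
    exact ContinuousLinearMap.norm_map_of_mem_unitary (L k).2 _
  have h4 : ∫ ω, ‖ev b L ω A (b k)‖ ^ 2 ∂P = ∫ ω, ‖ev b L ω A (b 1)‖ ^ 2 ∂P := by
    have h5 := (hmp k).map_eq
    conv_lhs => rw [← h5]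
    rw [integral_map (hmp k).measurable.aemeasurable
      ((hmeas (b k)).pow_const 2).aestronglyMeasurable]
    refine integral_congr_ae (Eventually.of_forall fun ω => ?_)
    show ‖ev b L (k • ω) A (b k)‖ ^ 2 = ‖ev b L ω A (b 1)‖ ^ 2
    rw [hinv ω]
  rw [h4]
  have h6 : tau P b L (star A * A) = ((∫ ω, ‖ev b L ω A (b 1)‖ ^ 2 ∂P : ℝ) : ℂ) := by
    rw [tau_apply, ← integral_complex_ofReal]
    refine integral_congr_ae (Eventually.of_forall fun ω => ?_)
    exact inner_star_mul b L A ω (b 1)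
  rw [n2, h6, Complex.ofReal_re, Real.sq_sqrt]
  exact integral_nonneg fun ω => by positivity

end

end Pool.Agent.W540.RO
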